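import Pool.Agent.Helper8.DE.SymMain

/-!
Critical connections of invariant functionals: definitions.
-/

set_option autoImplicit false

open scoped Manifold ContDiff
open MeasureTheory

namespace Pool.Agent.Helper8.HX

open Pool.Agent.Helper8.DC Pool.Agent.Helper8.DA Pool.Agent.Helper8.DE

noncomputable section

/-- The triple `θ = ρ F` of 2-forms, `θ_r = ∑_a ρ_(r,a) F_a`. -/
def tw (ρ : Fin 3 → R3) (F : Fin 4 → Fin 4 → R3) (l m : Fin 4) : R3 :=
  fun r => ∑ a, ρ r a * F l m a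

/-- The matrix `K_ab = F_a ∧ T_b`. -/
def crossGram (F T : Fin 4 → Fin 4 → R3) : Matrix (Fin 3) (Fin 3) ℝ :=
  fun a b => wedge (cmp F a) (cmp T b)

/-- `|φ|² tr K - φᵀ K φ`. -/
def restK (φ : R3) (K : Matrix (Fin 3) (Fin 3) ℝ) : ℝ :=
  (∑ a, φ a ^ 2) * K.trace - ∑ a, ∑ b, φ a * K a b * φ b

/-- The vector density of the 3-form `∑_r ∑ ε_abc s_(r,a) ∇ s_(r,b) ∧ T_c`. -/
def vecH {N : ℕ} (A : E4 → Fin 4 → R3) (B : E4 → Fin 4 → Matrix (Fin N) (Fin N) ℝ)
    (s : E4 → Fin N → R3) (T : E4 → Fin 4 → Fin 4 → R3) (y : E4) (l : Fin 4) : ℝ :=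
  ∑ r, trip (s y r) (Pi.single l 1) (covL A B s y r) (T y)

/-- `d_A T = 0` at `y` for an `E`-valued 2-form `T`. -/
def CovClosed (A : E4 → Fin 4 → R3) (T : E4 → Fin 4 → Fin 4 → R3) (y : E4) : Prop :=
  ∀ l m n : Fin 4, pd l (fun z => T z m n) y + pd m (fun z => T z n l) y +
    pd n (fun z => T z l m) y + crossProduct (A y l) (T y m n) +
    crossProduct (A y m) (T y n l) + crossProduct (A y n) (T y l m) = 0

/-- The quadratic form of the matrix `M` (not necessarily symmetric) is positive definite. -/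
def PosM (M : Fin 3 → Fin 3 → ℝ) : Prop :=
  ∀ v : R3, v ≠ 0 → 0 < ∑ a, ∑ b, v a * M a b * v b

/-- The symmetric gradient `∂f/∂M` of a function of matrices. -/
def grad (f : (Fin 3 → Fin 3 → ℝ) → ℝ) (M : Fin 3 → Fin 3 → ℝ) (a b : Fin 3) : ℝ :=
  (fderiv ℝ f M (Pi.single a (Pi.single b 1)) + fderiv ℝ f M (Pi.single b (Pi.single a 1))) / 2

/-- The connection forms `A + t a`. -/
def vary (A a : E4 → Fin 4 → R3) (t : ℝ) : E4 → Fin 4 → R3 := fun z m => A z m + t • a z m

/-- `d_A a` for an `E`-valued 1-form `a`. -/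
def dvar (A a : E4 → Fin 4 → R3) (y : E4) (l m : Fin 4) : R3 :=
  pd l (fun z => a z m) y - pd m (fun z => a z l) y + crossProduct (A y l) (a y m) +
    crossProduct (a y l) (A y m)

variable {X : Type} [TopologicalSpace X] [ChartedSpace E4 X] [IsManifold (𝓡 4) ∞ X]

/-- A smooth fibre map `f` from the positive elements of `S²E ⊗ Λ⁴` to `Λ⁴`: in the chart `i`, the
point `M · dy⁰ ∧ dy¹ ∧ dy² ∧ dy³` over `y` goes to `f i y M · dy⁰ ∧ dy¹ ∧ dy² ∧ dy³`. Every smooth
function `f` of positive matrices with `f (g M gᵀ) = f M` for `g` in `SO(3)` and `f (c M) = c f M`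
for `c > 0` is an example. -/
structure Dens (P : Bundle X) where
  /-- local representatives -/
  f : P.ι → E4 → (Fin 3 → Fin 3 → ℝ) → ℝ
  smooth : ∀ i, ContDiffOn ℝ ∞ (fun p : E4 × (Fin 3 → Fin 3 → ℝ) => f i p.1 p.2)
    ((P.c i).target ×ˢ {M | PosM M})
  compat : ∀ i j, ∀ y ∈ P.ov i j, ∀ M : Matrix (Fin 3) (Fin 3) ℝ, PosM M →
    f j y M = (jac P i j y).det *
      f i (P.tr i j y) ((jac P i j y).det⁻¹ • (P.g i j y * M * (P.g i j y).transpose))

/-- The connection is critical for `∫_X f (M_A)`: the derivative at `t = 0` of the integral of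
`f (M (A + t a))` over the support of `a` is zero, for every smooth `E`-valued 1-form `a` with
compact support in one of the charts. -/
def Critical (P : Bundle X) (f : Dens P) : Prop :=
  ∀ (i : P.ι) (a : E4 → Fin 4 → R3), ContDiff ℝ ∞ a → HasCompactSupport a →
    tsupport a ⊆ (P.c i).target →
    HasDerivAt (fun t : ℝ => ∫ y in tsupport a, f.f i y (gram (curv (vary (P.A i) a t) y))) 0 0

/-- `ψ = ∂f/∂M` at the curvature matrix, in the trivialisation `i`. -/
def psi (P : Bundle X) (f : Dens P) (i : P.ι) (y : E4) : Fin 3 → R3 :=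
  fun r a => grad (f.f i y) (gram (curv (P.A i) y)) r a

/-- `α + β ψ`. -/
def pencil (α β : ℝ) (ψ : Fin 3 → R3) : Fin 3 → R3 :=
  fun r a => α * (if r = a then 1 else 0) + β * ψ r a

end

end Pool.Agent.Helper8.HX
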