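import Pool.Agent.Helper8.HX.Defs

/-!
The bound for the matrix `N = ρ M ρ`.
-/

set_option autoImplicit false

namespace Pool.Agent.Helper8.HX

/-- `det (tr N · 1 - 2 N) + 24 det N ≥ 0`. -/
def Bound (N : Matrix (Fin 3) (Fin 3) ℝ) : Prop :=
  0 ≤ (N.trace • (1 : Matrix (Fin 3) (Fin 3) ℝ) - (2 : ℝ) • N).det + 24 * N.det

end Pool.Agent.Helper8.HX
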