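import Pool.Agent.Helper8.HX.MainP
import Pool.Agent.Helper78.HX.Psi
import Pool.Agent.Helper35.HX.Var
import Pool.Agent.Helper81.HX.First

/-!
Critical connections: the Euler-Lagrange equation and the theorem.
-/

set_option autoImplicit false

open scoped Manifold ContDiff
open MeasureTheory

namespace Pool.Agent.Helper8.HX

open Pool.Agent.Helper8.DC Pool.Agent.Helper8.DA Pool.Agent.Helper8.DE
open Pool.Agent.Helper78.HX (exists_psi)
open Pool.Agent.Helper35.HX (closed_of_variation)
open Pool.Agent.Helper81.HX (first_variation)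

noncomputable section

variable {X : Type} [TopologicalSpace X] [ChartedSpace E4 X] [IsManifold (𝓡 4) ∞ X]

/-- The Euler-Lagrange equation. -/
theorem closed_psi (P : Bundle X) (hP : P.PositiveDefinite) (f : Dens P) (hcrit : Critical P f)
    (ψ : Sect P (adj P)) (hψ : ∀ i y, ψ.s i y = psi P f i y) : ψ.Closed := by
  intro i y hy
  refine closed_of_variation (P.A i) (ψ.s i) _ (P.c i).open_target (P.A_smooth i) (ψ.smooth i)
    ?_ y hy
  intro a ha hc hsub
  have hMpos : ∀ y ∈ (P.c i).target, PosM (gram (curv (P.A i) y)) := by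
    intro y hy v hv
    exact gram_pos _ (skew_curv _ _) (hP i y hy) v hv
  have h1 := first_variation (f.f i) (P.A i) a _ (P.c i).open_target (f.smooth i) (P.A_smooth i)
    hMpos ha hc hsub
  have h2 := h1.unique (hcrit i a ha hc hsub)
  have h3 : (∫ y in tsupport a, 2 * ∑ r, ∑ b, grad (f.f i y) (gram (curv (P.A i) y)) r b *
        wedge (cmp (dvar (P.A i) a y) r) (cmp (curv (P.A i) y) b)) =
      2 * ∫ y in tsupport a, ∑ r, ∑ b, ψ.s i y r b *
        wedge (cmp (dvar (P.A i) a y) r) (cmp (curv (P.A i) y) b) := by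
    rw [← integral_const_mul]
    simp only [hψ]
    rfl
  rw [h3] at h2
  linarith

/-- **Theorem.** Critical connections. -/
theorem mainV [T2Space X] [CompactSpace X] (P : Bundle X) (hP : P.PositiveDefinite)
    (f : Dens P) (hcrit : Critical P f) (α β : ℝ)
    (hpos : ∀ i, ∀ y ∈ (P.c i).target, PosM (pencil α β (psi P f i y)))
    (hpin : ∀ i, ∀ y ∈ (P.c i).target,
      WeakPinched (tw (pencil α β (psi P f i y)) (curv (P.A i) y))) :
    ∃ s : X → ℝ, IsLocallyConstant s ∧
      ∀ i, ∀ y ∈ (P.c i).target, ∀ r, psi P f i y r = s ((P.c i).symm y) • Pi.single r 1 := by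
  obtain ⟨ψ, hψs, hψ⟩ := exists_psi P hP f
  obtain ⟨s, h1, h2⟩ := mainP P hP ψ hψs (closed_psi P hP f hcrit ψ hψ) α β
    (fun i y hy => by rw [hψ]; exact hpos i y hy) (fun i y hy => by rw [hψ]; exact hpin i y hy)
  exact ⟨s, h1, fun i y hy r => by rw [← hψ]; exact h2 i y hy r⟩

end

end Pool.Agent.Helper8.HX
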