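import Pool.Agent.Helper8.HX.Defs

/-!
FRAMES (statements of the pieces, with sorry; never import this in a final file).
-/

set_option autoImplicit false

open scoped Manifold ContDiff
open MeasureTheory

namespace Pool.Agent.Helper8.HX

open Pool.Agent.Helper8.DC Pool.Agent.Helper8.DA Pool.Agent.Helper8.DE

noncomputable section

/-- K1 (from `Helper33.DE.alg_divG` applied to `T`, `dT` and
`dc' r l m = dc r l m - (1/2) • crossProduct (F l m - T l m) (φ r)`). -/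
theorem alg_divH {N : ℕ} (A : Fin 4 → R3) (B : Fin 4 → Matrix (Fin N) (Fin N) ℝ)
    (hB : ∀ m r t, B m r t = -B m t r) (G : Fin N → Fin N → Fin 4 → Fin 4 → ℝ)
    (hG : ∀ r t l m, G r t l m = -G r t m l) (φ : Fin N → R3) (c : Fin N → Fin 4 → R3)
    (dc : Fin N → Fin 4 → Fin 4 → R3) (F T : Fin 4 → Fin 4 → R3)
    (dT : Fin 4 → Fin 4 → Fin 4 → R3) (hF : ∀ l m, F l m = -F m l) (hT : ∀ l m, T l m = -T m l)
    (hdT : ∀ k l m, dT k l m = -dT k m l)
    (h1 : ∀ r l m, dc r l m - dc r m l + crossProduct (A l) (c r m) - crossProduct (A m) (c r l) +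
      ∑ t, (B l r t • c t m - B m r t • c t l) = crossProduct (F l m) (φ r) + ∑ t, G r t l m • φ t)
    (h2 : ∀ l m n, dT l m n + dT m n l + dT n l m + crossProduct (A l) (T m n) +
      crossProduct (A m) (T n l) + crossProduct (A n) (T l m) = 0) :
    ∑ l, ∑ r, (trip (c r l - crossProduct (A l) (φ r) - ∑ t, B l r t • φ t) (Pi.single l 1) (c r) T +
      trip (φ r) (Pi.single l 1) (dc r l) T + trip (φ r) (Pi.single l 1) (c r) (dT l)) =
      ∑ r, (quad (c r) T + restK (φ r) (crossGram F T)) + curvTerm G φ T := by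
  sorry

/-- K2 (copy of `Helper50.DE.div_vecG_of` with `T` in place of `curv A` as the triple). -/
theorem div_vecH {N : ℕ} (A : E4 → Fin 4 → R3) (B : E4 → Fin 4 → Matrix (Fin N) (Fin N) ℝ)
    (s : E4 → Fin N → R3) (T : E4 → Fin 4 → Fin 4 → R3) (U : Set E4) (hU : IsOpen U)
    (hA : ContDiffOn ℝ ∞ A U) (hB : ∀ m r t, ContDiffOn ℝ ∞ (fun y => B y m r t) U)
    (hs : ContDiffOn ℝ ∞ s U) (hT : ContDiffOn ℝ ∞ T U) (hTs : ∀ z ∈ U, Skew (T z)) (y : E4)
    (hy : y ∈ U) (hskew : ∀ m r t, B y m r t = -B y m t r) (hTc : CovClosed A T y) :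
    ∑ l, pd l (fun z => vecH A B s T z l) y =
      ∑ r, (quad (covL A B s y r) (T y) + restK (s y r) (crossGram (curv A y) (T y))) +
        curvTerm (mcurv B y) (s y) (T y) := by
  sorry

/-- K5a -/
theorem vecH_smooth {N : ℕ} {U : Set E4} (hU : IsOpen U) {A : E4 → Fin 4 → R3}
    {B : E4 → Fin 4 → Matrix (Fin N) (Fin N) ℝ} {s : E4 → Fin N → R3}
    {T : E4 → Fin 4 → Fin 4 → R3}
    (hA : ContDiffOn ℝ ∞ A U) (hB : ∀ m r t, ContDiffOn ℝ ∞ (fun y => B y m r t) U)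
    (hs : ContDiffOn ℝ ∞ s U) (hT : ContDiffOn ℝ ∞ T U) (l : Fin 4) :
    ContDiffOn ℝ ∞ (fun y => vecH A B s T y l) U := by
  sorry

/-- K5b -/
theorem tw_smooth {U : Set E4} (hU : IsOpen U) {A : E4 → Fin 4 → R3} {ρ : E4 → Fin 3 → R3}
    (hA : ContDiffOn ℝ ∞ A U) (hρ : ContDiffOn ℝ ∞ ρ U) :
    ContDiffOn ℝ ∞ (fun y => tw (ρ y) (curv A y)) U := by
  sorry

/-- K5c -/
theorem tw_skew (ρ : Fin 3 → R3) (F : Fin 4 → Fin 4 → R3) (hF : Skew F) : Skew (tw ρ F) := by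
  sorry

/-- K7a (copy of `Helper56.DA.constrL`, but with a closed triple `T`). -/
theorem constrH {N : ℕ} (A : E4 → Fin 4 → R3) (B : E4 → Fin 4 → Matrix (Fin N) (Fin N) ℝ)
    (s : E4 → Fin N → R3) (T : E4 → Fin 4 → Fin 4 → R3) (U : Set E4) (hU : IsOpen U)
    (hA : ContDiffOn ℝ ∞ A U) (hs : ContDiffOn ℝ ∞ s U) (hT : ContDiffOn ℝ ∞ T U)
    (hTs : ∀ z ∈ U, Skew (T z)) (y : E4) (hy : y ∈ U) (hTc : CovClosed A T y)
    (hc : ClosedAt B (fun z r l m => ∑ a, s z r a * T z l m a) y) (r : Fin N) :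
    Constr (covL A B s y r) (T y) := by
  sorry

/-- K7b: Bianchi, as a closed `E`-valued form with coefficients `adj`. -/
theorem closedAt_curv (A : E4 → Fin 4 → R3) (U : Set E4) (hU : IsOpen U)
    (hA : ContDiffOn ℝ ∞ A U) (y : E4) (hy : y ∈ U) :
    ClosedAt (fun z m => crossMat (A z m)) (fun z r l m => curv A z l m r) y := by
  sorry

/-- K7c: `d_A (ρ F) = 0` in the two forms. -/
theorem covClosed_tw (A : E4 → Fin 4 → R3) (ρ : E4 → Fin 3 → R3) (U : Set E4) (hU : IsOpen U)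
    (hA : ContDiffOn ℝ ∞ A U) (hρ : ContDiffOn ℝ ∞ ρ U) (y : E4) (hy : y ∈ U) :
    ClosedAt (fun z m => crossMat (A z m)) (formL A ρ) y ↔
      CovClosed A (fun z => tw (ρ z) (curv A z)) y := by
  sorry

/-- K8 -/
theorem pos_of_symm_mul (M R : Matrix (Fin 3) (Fin 3) ℝ) (hM : M.transpose = M)
    (hR : R.transpose = R) (hMp : PosM M) (hRp : PosM R) (hMR : (M * R).transpose = M * R) :
    PosM (M * R) := by
  sorry

/-- K9: `d_A² T = F × T = 0`, so `F_a ∧ T_b` is symmetric. -/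
theorem crossGram_symm (A : E4 → Fin 4 → R3) (T : E4 → Fin 4 → Fin 4 → R3) (U : Set E4)
    (hU : IsOpen U) (hA : ContDiffOn ℝ ∞ A U) (hT : ContDiffOn ℝ ∞ T U)
    (hTs : ∀ z ∈ U, Skew (T z)) (hTc : ∀ z ∈ U, CovClosed A T z) (y : E4) (hy : y ∈ U) :
    (crossGram (curv A y) (T y)).transpose = crossGram (curv A y) (T y) := by
  sorry

/-- K9b -/
theorem crossGram_tw (ρ : Fin 3 → R3) (F : Fin 4 → Fin 4 → R3) :
    crossGram F (tw ρ F) = gram F * (Matrix.of ρ).transpose := by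
  sorry

/-- K9c -/
theorem gram_tw (ρ : Fin 3 → R3) (F : Fin 4 → Fin 4 → R3) :
    gram (tw ρ F) = Matrix.of ρ * gram F * (Matrix.of ρ).transpose := by
  sorry

/-- K10a: `Helper98.DE.sym_nonneg_of` (with `sym_diag`), where `PosDef T` is only used through
`gram_pos` and `urb_neg`. -/
theorem sym_nonneg_T (T : Fin 4 → Fin 4 → R3) (hs : Skew T) (hg : PosM (gram T))
    (hu : ∀ u : Fin 4 → ℝ, quad (fun m a => val T u (Pi.single m 1) a) T ≤ 0)
    (hpin : WeakPinched T) (c : Fin 3 → Fin 4 → R3) (hsym : ∀ r m a, c r m a = c a m r)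
    (hc : ∀ r, Constr (c r) T) : 0 ≤ ∑ r, quad (c r) T := by
  sorry

/-- K10b -/
theorem urb_tw (ρ : Fin 3 → R3) (F : Fin 4 → Fin 4 → R3) (u : Fin 4 → ℝ) :
    quad (fun m a => val (tw ρ F) u (Pi.single m 1) a) (tw ρ F) =
      (Matrix.of ρ).det * quad (fun m a => val F u (Pi.single m 1) a) F := by
  sorry

/-- K10c -/
theorem curvTerm_crossT (F T : Fin 4 → Fin 4 → R3) (φ : Fin 3 → R3) :
    ∑ r, restK (φ r) (crossGram F T) + curvTerm (fun r t l m => crossMat (F l m) r t) φ T =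
      kE (crossGram F T) φ := by
  sorry

variable {X : Type} [TopologicalSpace X] [ChartedSpace E4 X] [IsManifold (𝓡 4) ∞ X]

/-- K3 (copy of `Helper98.DA.vecL_tr`; `hTtr` in place of `curv_tr`). -/
theorem vecH_tr (P : Bundle X) {N : ℕ} (L : Coef P N) (φ : Sect P L)
    (T : P.ι → E4 → Fin 4 → Fin 4 → R3) (i j : P.ι) (y : E4) (hy : y ∈ P.ov i j)
    (hTs : Skew (T i (P.tr i j y)))
    (hTtr : ∀ l m, ∑ n, ∑ p, (jac P i j y n l * jac P i j y p m) • T i (P.tr i j y) n p =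
      (P.g i j y).mulVec (T j y l m)) (n : Fin 4) :
    ∑ l, jac P i j y n l * vecH (P.A j) (L.B j) (φ.s j) (T j) y l =
      (jac P i j y).det * vecH (P.A i) (L.B i) (φ.s i) (T i) (P.tr i j y) n := by
  sorry

/-- K4 -/
theorem tw_tr (P : Bundle X) (ρ : Sect P (adj P)) (i j : P.ι) (y : E4) (hy : y ∈ P.ov i j)
    (l m : Fin 4) :
    ∑ n, ∑ p, (jac P i j y n l * jac P i j y p m) •
        tw (ρ.s i (P.tr i j y)) (curv (P.A i) (P.tr i j y)) n p =
      (P.g i j y).mulVec (tw (ρ.s j y) (curv (P.A j) y) l m) := by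
  sorry

/-- K6: the inverse section. -/
theorem exists_inv (P : Bundle X) (ρ : Sect P (adj P)) (hs : IsSymm P ρ)
    (hpos : ∀ i, ∀ y ∈ (P.c i).target, PosM (ρ.s i y)) :
    ∃ Ψ : Sect P (adj P), IsSymm P Ψ ∧ ∀ i, ∀ y ∈ (P.c i).target,
      Matrix.of (Ψ.s i y) * Matrix.of (ρ.s i y) = 1 := by
  sorry

/-- K12: the pencil. -/
theorem exists_pencil (P : Bundle X) (ψ : Sect P (adj P)) (hs : IsSymm P ψ) (hc : ψ.Closed)
    (α β : ℝ) : ∃ ρ : Sect P (adj P), IsSymm P ρ ∧ ρ.Closed ∧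
      ∀ i y, ρ.s i y = pencil α β (ψ.s i y) := by
  sorry

/-! ### The variational part -/

/-- V1 -/
theorem curv_vary (A a : E4 → Fin 4 → R3) (y : E4) (hA : DifferentiableAt ℝ A y)
    (ha : DifferentiableAt ℝ a y) (t : ℝ) (l m : Fin 4) :
    curv (vary A a t) y l m = curv A y l m + t • dvar A a y l m +
      t ^ 2 • crossProduct (a y l) (a y m) := by
  sorry

/-- V2: the first variation. -/
theorem first_variation (f : E4 → (Fin 3 → Fin 3 → ℝ) → ℝ) (A a : E4 → Fin 4 → R3) (U : Set E4)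
    (hU : IsOpen U) (hf : ContDiffOn ℝ ∞ (fun p : E4 × (Fin 3 → Fin 3 → ℝ) => f p.1 p.2)
      (U ×ˢ {M | PosM M})) (hA : ContDiffOn ℝ ∞ A U)
    (hpos : ∀ y ∈ U, PosM (gram (curv A y))) (ha : ContDiff ℝ ∞ a) (hc : HasCompactSupport a)
    (hsub : tsupport a ⊆ U) :
    HasDerivAt (fun t : ℝ => ∫ y in tsupport a, f y (gram (curv (vary A a t) y)))
      (∫ y in tsupport a, 2 * ∑ r, ∑ b, grad (f y) (gram (curv A y)) r b *
        wedge (cmp (dvar A a y) r) (cmp (curv A y) b)) 0 := by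
  sorry

/-- V3: integration by parts and the fundamental lemma. `η_r = ∑_b ψ_(r,b) F_b`. -/
theorem closed_of_variation (A : E4 → Fin 4 → R3) (ψ : E4 → Fin 3 → R3) (U : Set E4)
    (hU : IsOpen U) (hA : ContDiffOn ℝ ∞ A U) (hψ : ContDiffOn ℝ ∞ ψ U)
    (hvar : ∀ a : E4 → Fin 4 → R3, ContDiff ℝ ∞ a → HasCompactSupport a → tsupport a ⊆ U →
      ∫ y in tsupport a, ∑ r, ∑ b, ψ y r b *
        wedge (cmp (dvar A a y) r) (cmp (curv A y) b) = 0) (y : E4) (hy : y ∈ U) :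
    ClosedAt (fun z m => crossMat (A z m)) (formL A ψ) y := by
  sorry

/-- V4a: the set of positive definite matrices is open. -/
theorem isOpen_posM : IsOpen {M : Fin 3 → Fin 3 → ℝ | PosM M} := by
  sorry

/-- V4b: the gradient is smooth. -/
theorem grad_smooth (f : E4 → (Fin 3 → Fin 3 → ℝ) → ℝ) (U : Set E4) (hU : IsOpen U)
    (hf : ContDiffOn ℝ ∞ (fun p : E4 × (Fin 3 → Fin 3 → ℝ) => f p.1 p.2) (U ×ˢ {M | PosM M}))
    (r a : Fin 3) : ContDiffOn ℝ ∞ (fun p : E4 × (Fin 3 → Fin 3 → ℝ) => grad (f p.1) p.2 r a)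
      (U ×ˢ {M | PosM M}) := by
  sorry

/-- V4c: if `f₂ M = d f₁ (d⁻¹ g M gᵀ)` then `∇f₁ (d⁻¹ g M gᵀ) = g (∇f₂ M) gᵀ`. -/
theorem grad_equiv (f₁ f₂ : (Fin 3 → Fin 3 → ℝ) → ℝ) (hf₁ : DifferentiableOn ℝ f₁ {M | PosM M})
    (d : ℝ) (hd : 0 < d) (g : Matrix (Fin 3) (Fin 3) ℝ)
    (hg : g ∈ Matrix.specialOrthogonalGroup (Fin 3) ℝ)
    (h : ∀ M : Matrix (Fin 3) (Fin 3) ℝ, PosM M → f₂ M = d * f₁ (d⁻¹ • (g * M * g.transpose)))
    (M : Matrix (Fin 3) (Fin 3) ℝ) (hM : PosM M) (r a : Fin 3) :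
    grad f₁ (d⁻¹ • (g * M * g.transpose)) r a =
      (g * Matrix.of (grad f₂ M) * g.transpose) r a := by
  sorry

/-- V5: `∂f/∂M` is a symmetric section. -/
theorem exists_psi (P : Bundle X) (hP : P.PositiveDefinite) (f : Dens P) :
    ∃ ψ : Sect P (adj P), IsSymm P ψ ∧ ∀ i y, ψ.s i y = psi P f i y := by
  sorry

end

end Pool.Agent.Helper8.HX
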