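import Pool.Agent.Helper8.HX.Tr
import Pool.Agent.Helper35.HX.Alg
import Pool.Agent.Helper76.HX.Pos
import Pool.Agent.Helper76.HX.Inv
import Pool.Agent.Helper76.HX.SymT
import Pool.Agent.Helper78.HX.Psi
import Pool.Agent.Helper43.HX.Pencil
import Pool.Agent.Helper43.HX.Bianchi
import Pool.Agent.Helper56.HX.Bi
import Pool.Agent.Helper33.HX.Div
import Pool.Agent.Helper45.HX.K7a

set_option autoImplicit false

open scoped Manifold ContDiff
open MeasureTheory

namespace Pool.Agent.Helper8.HX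

open Pool.Agent.Helper8.DC Pool.Agent.Helper8.DA Pool.Agent.Helper8.DE
open Pool.Agent.Helper35.HX (crossGram_tw gram_tw urb_tw curvTerm_crossT)
open Pool.Agent.Helper76.HX (pos_of_symm_mul exists_inv sym_nonneg_T)
open Pool.Agent.Helper78.HX (exists_psi)
open Pool.Agent.Helper43.HX (exists_pencil closedAt_curv)
open Pool.Agent.Helper56.HX (covClosed_tw)
open Pool.Agent.Helper33.HX (div_vecH vecH_smooth tw_smooth tw_skew)
open Pool.Agent.Helper45.HX (constrH crossGram_symm)

noncomputable section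

variable {X : Type} [TopologicalSpace X] [ChartedSpace E4 X] [IsManifold (𝓡 4) ∞ X]

/-- The triple `θ = ρ F` in the chart `i`. -/
def th (P : Bundle X) (ρ : Sect P (adj P)) (i : P.ι) (y : E4) : Fin 4 → Fin 4 → R3 :=
  tw (ρ.s i y) (curv (P.A i) y)

theorem th_smooth (P : Bundle X) (ρ : Sect P (adj P)) (i : P.ι) :
    ContDiffOn ℝ ∞ (th P ρ i) (P.c i).target :=
  tw_smooth (P.c i).open_target (P.A_smooth i) (ρ.smooth i)

theorem th_skew (P : Bundle X) (ρ : Sect P (adj P)) (i : P.ι) (y : E4) : Skew (th P ρ i y) :=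
  tw_skew _ _ (skew_curv _ _)

/-- The vector density as a map `E4 → E4`. -/
def wH (P : Bundle X) (ρ φ : Sect P (adj P)) (i : P.ι) (y : E4) : E4 :=
  WithLp.toLp 2 (vecH (P.A i) ((adj P).B i) (φ.s i) (th P ρ i) y)

theorem wH_smooth (P : Bundle X) (ρ φ : Sect P (adj P)) (i : P.ι) :
    ContDiffOn ℝ ∞ (wH P ρ φ i) (P.c i).target := by
  rw [contDiffOn_euclidean]
  intro l
  exact vecH_smooth (P.c i).open_target (P.A_smooth i) ((adj P).B_smooth i) (φ.smooth i)
    (th_smooth P ρ i) l

theorem trace_wH (P : Bundle X) (ρ φ : Sect P (adj P)) (i : P.ι) (y : E4)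
    (hy : y ∈ (P.c i).target) (hc : CovClosed (P.A i) (th P ρ i) y) :
    LinearMap.trace ℝ E4 (fderiv ℝ (wH P ρ φ i) y : E4 →ₗ[ℝ] E4) =
      ∑ r, quad (covL (P.A i) ((adj P).B i) (φ.s i) y r) (th P ρ i y) +
        kE (crossGram (curv (P.A i) y) (th P ρ i y)) (φ.s i y) := by
  have h1 : mcurv ((adj P).B i) y = fun r t l m => crossMat (curv (P.A i) y l m) r t := by
    funext r t l m
    exact Pool.Agent.Helper56.DE.mcurv_cross (P.c i).open_target (P.A_smooth i) hy r t l m
  rw [← curvTerm_crossT, ← add_assoc, ← Finset.sum_add_distrib, ← h1]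
  rw [trace_eq, ← div_vecH (P.A i) ((adj P).B i) (φ.s i) (th P ρ i) _ (P.c i).open_target
    (P.A_smooth i) ((adj P).B_smooth i) (φ.smooth i) (th_smooth P ρ i)
    (fun z _ => th_skew P ρ i z) y hy ((adj P).B_skew i y hy) hc]
  refine Finset.sum_congr rfl fun l _ => ?_
  have hw : DifferentiableAt ℝ (wH P ρ φ i) y :=
    ((wH_smooth P ρ φ i).contDiffAt ((P.c i).open_target.mem_nhds hy)).differentiableAt (by simp)
  have := (EuclideanSpace.proj (𝕜 := ℝ) l : E4 →L[ℝ] ℝ).hasFDerivAt.comp y hw.hasFDerivAt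
  unfold pd
  have h2 : (fun z => vecH (P.A i) ((adj P).B i) (φ.s i) (th P ρ i) z l) =
      (EuclideanSpace.proj (𝕜 := ℝ) l : E4 →L[ℝ] ℝ) ∘ (wH P ρ φ i) := by
    funext z; rfl
  rw [h2, this.fderiv]
  rfl

/-- The divergence argument with the closed triple `θ = ρ F`. -/
theorem mainQH [T2Space X] [CompactSpace X] (P : Bundle X) (hP : P.PositiveDefinite)
    (ρ φ : Sect P (adj P)) (hc : ρ.Closed)
    (hq : ∀ i, ∀ y ∈ (P.c i).target,
      0 ≤ ∑ r, quad (covL (P.A i) ((adj P).B i) (φ.s i) y r) (th P ρ i y))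
    (hK : ∀ i, ∀ y ∈ (P.c i).target,
      0 ≤ kE (crossGram (curv (P.A i) y) (th P ρ i y)) (φ.s i y)) :
    ∀ i, ∀ y ∈ (P.c i).target,
      kE (crossGram (curv (P.A i) y) (th P ρ i y)) (φ.s i y) = 0 := by
  have hcc : ∀ i, ∀ y ∈ (P.c i).target, CovClosed (P.A i) (th P ρ i) y := fun i y hy =>
    (covClosed_tw (P.A i) (ρ.s i) _ (P.c i).open_target (P.A_smooth i) (ρ.smooth i) y hy).1
      (hc i y hy)
  have htr : ∀ i, ∀ y ∈ (P.c i).target,
      LinearMap.trace ℝ E4 (fderiv ℝ (wH P ρ φ i) y : E4 →ₗ[ℝ] E4) =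
      ∑ r, quad (covL (P.A i) ((adj P).B i) (φ.s i) y r) (th P ρ i y) +
        kE (crossGram (curv (P.A i) y) (th P ρ i y)) (φ.s i y) := fun i y hy =>
    trace_wH P ρ φ i y hy (hcc i y hy)
  have hnn : ∀ i, ∀ y ∈ (P.c i).target,
      0 ≤ LinearMap.trace ℝ E4 (fderiv ℝ (wH P ρ φ i) y : E4 →ₗ[ℝ] E4) := by
    intro i y hy
    rw [htr i y hy]
    exact add_nonneg (hq i y hy) (hK i y hy)
  have hcompat : ∀ i j, ∀ y ∈ (P.c j).target, (P.c j).symm y ∈ (P.c i).source →
      0 < (fderiv ℝ (P.c i ∘ (P.c j).symm) y).det ∧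
      fderiv ℝ (P.c i ∘ (P.c j).symm) y (wH P ρ φ j y)
        = (fderiv ℝ (P.c i ∘ (P.c j).symm) y).det • wH P ρ φ i (P.c i ((P.c j).symm y)) := by
    intro i j y hy hy2
    have hyo : y ∈ P.ov i j := ⟨hy, hy2⟩
    rw [det_eq]
    refine ⟨det_pos P hP i j y hyo, ?_⟩
    have hlin : fderiv ℝ (P.c i ∘ (P.c j).symm) y (wH P ρ φ j y) =
        ∑ l, vecH (P.A j) ((adj P).B j) (φ.s j) (th P ρ j) y l • pd l (P.tr i j) y := by
      have h1 : wH P ρ φ j y =
          ∑ l, vecH (P.A j) ((adj P).B j) (φ.s j) (th P ρ j) y l •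
            EuclideanSpace.single l (1 : ℝ) := by
        ext k
        simp [wH, Finset.sum_apply, Pi.single_apply]
      rw [h1, map_sum]
      refine Finset.sum_congr rfl fun l _ => ?_
      rw [map_smul]
      rfl
    rw [hlin]
    ext n
    have := vecH_tr P (adj P) φ (th P ρ) i j y hyo (th_skew P ρ i _)
      (fun l m => tw_tr P ρ i j y hyo l m) n
    simp only [PiLp.smul_apply, smul_eq_mul, wH, WithLp.ofLp_sum, Finset.sum_apply]
    refine Eq.trans ?_ this
    refine Finset.sum_congr rfl fun l _ => ?_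
    simp only [jac]
    rw [mul_comm]
  have hz := Pool.Agent.Helper64.DC.stokes P.c P.c_mem P.cover (wH P ρ φ)
    (fun i => (wH_smooth P ρ φ i).of_le (by simp)) hcompat hnn
  intro i y hy
  have h0 := hz i y hy
  rw [htr i y hy] at h0
  have h1 := hq i y hy
  have h2 := hK i y hy
  linarith

/-- **Theorem.** A positive closed symmetric section `ρ` of `Λ⁺_A ⊗ E` is a multiple of `F_A`, if
`N = ρ M ρ` satisfies `det (tr N · 1 - 2 N) + 24 det N ≥ 0` everywhere. -/
theorem scalar_atR [T2Space X] [CompactSpace X] (P : Bundle X) (hP : P.PositiveDefinite)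
    (ρ : Sect P (adj P)) (hs : IsSymm P ρ) (hc : ρ.Closed)
    (hpos : ∀ i, ∀ y ∈ (P.c i).target, PosM (ρ.s i y))
    (hpin : ∀ i, ∀ y ∈ (P.c i).target, WeakPinched (tw (ρ.s i y) (curv (P.A i) y)))
    (i : P.ι) (y : E4) (hy : y ∈ (P.c i).target) (r : Fin 3) :
    ρ.s i y r = (ρ.s i y 0 0) • (Pi.single r 1 : R3) := by
  obtain ⟨Ψ, hΨs, hΨ⟩ := exists_inv P ρ hs hpos
  have hcc : ∀ i, ∀ y ∈ (P.c i).target, CovClosed (P.A i) (th P ρ i) y := fun i y hy =>
    (covClosed_tw (P.A i) (ρ.s i) _ (P.c i).open_target (P.A_smooth i) (ρ.smooth i) y hy).1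
      (hc i y hy)
  have hMpos : ∀ i, ∀ y ∈ (P.c i).target, PosM (gram (curv (P.A i) y)) := by
    intro i y hy v hv
    exact gram_pos _ (skew_curv _ _) (hP i y hy) v hv
  have hRs : ∀ i, ∀ y ∈ (P.c i).target, (Matrix.of (ρ.s i y)).transpose = Matrix.of (ρ.s i y) := by
    intro i y hy
    ext a b
    exact hs i y hy b a
  -- the matrix `K`
  have hKs : ∀ i, ∀ y ∈ (P.c i).target, (crossGram (curv (P.A i) y) (th P ρ i y)).transpose =
      crossGram (curv (P.A i) y) (th P ρ i y) := fun i y hy =>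
    crossGram_symm (P.A i) (th P ρ i) _ (P.c i).open_target (P.A_smooth i) (th_smooth P ρ i)
      (fun z _ => th_skew P ρ i z) (fun z hz => hcc i z hz) y hy
  have hKe : ∀ i, ∀ y ∈ (P.c i).target, crossGram (curv (P.A i) y) (th P ρ i y) =
      gram (curv (P.A i) y) * Matrix.of (ρ.s i y) := by
    intro i y hy
    show crossGram _ (tw _ _) = _
    rw [crossGram_tw, hRs i y hy]
  have hKp : ∀ i, ∀ y ∈ (P.c i).target,
      PosM (crossGram (curv (P.A i) y) (th P ρ i y)) := by
    intro i y hy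
    rw [hKe i y hy]
    refine pos_of_symm_mul _ _ (gram_symm _) (hRs i y hy) (hMpos i y hy) (hpos i y hy) ?_
    rw [← hKe i y hy]
    exact hKs i y hy
  have hdet : ∀ i, ∀ y ∈ (P.c i).target, 0 < (Matrix.of (ρ.s i y)).det := by
    intro i y hy
    have h1 : (Matrix.of (ρ.s i y)).PosDef := by
      refine Matrix.PosDef.of_dotProduct_mulVec_pos ?_ ?_
      · rw [Matrix.IsHermitian, Matrix.conjTranspose_eq_transpose_of_trivial]
        exact hRs i y hy
      · intro v hv
        have := hpos i y hy v hv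
        refine lt_of_lt_of_eq this ?_
        simp only [dotProduct, Matrix.mulVec, star_trivial, Finset.mul_sum, Matrix.of_apply]
        refine Finset.sum_congr rfl fun a _ => Finset.sum_congr rfl fun b _ => ?_
        ring
    exact h1.det_pos
  have hg : ∀ i, ∀ y ∈ (P.c i).target, PosM (gram (th P ρ i y)) := by
    intro i y hy v hv
    have hne : (fun b => ∑ a, v a * ρ.s i y a b) ≠ 0 := by
      intro h0
      apply hv
      have h1 : Matrix.vecMul v (Matrix.of (ρ.s i y)) = 0 := by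
        funext b
        exact congrFun h0 b
      exact Matrix.eq_zero_of_vecMul_eq_zero (hdet i y hy).ne' h1
    have h2 := hMpos i y hy _ hne
    refine lt_of_lt_of_eq h2 ?_
    show _ = ∑ a, ∑ b, v a * gram (tw (ρ.s i y) (curv (P.A i) y)) a b * v b
    rw [gram_tw]
    simp only [Matrix.mul_apply, Matrix.transpose_apply, Matrix.of_apply, Fin.sum_univ_three]
    ring
  have hu : ∀ i, ∀ y ∈ (P.c i).target, ∀ u : Fin 4 → ℝ,
      quad (fun m a => val (th P ρ i y) u (Pi.single m 1) a) (th P ρ i y) ≤ 0 := by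
    intro i y hy u
    have h1 := urb_tw (ρ.s i y) (curv (P.A i) y) u
    show quad (fun m a => val (tw _ _) u (Pi.single m 1) a) (tw _ _) ≤ 0
    rw [h1]
    exact mul_nonpos_of_nonneg_of_nonpos (hdet i y hy).le
      (urb_neg _ (skew_curv _ _) (hP i y hy) u)
  have hconstr : ∀ i, ∀ y ∈ (P.c i).target, ∀ r,
      Constr (covL (P.A i) ((adj P).B i) (Ψ.s i) y r) (th P ρ i y) := by
    intro i y hy r
    refine constrH (P.A i) ((adj P).B i) (Ψ.s i) (th P ρ i) _ (P.c i).open_target
      (P.A_smooth i) (Ψ.smooth i) (th_smooth P ρ i) (fun z _ => th_skew P ρ i z) y hy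
      (hcc i y hy) ?_ r
    have hev : ∀ z ∈ (P.c i).target, ∀ (r : Fin 3) (l m : Fin 4),
        ∑ a, Ψ.s i z r a * th P ρ i z l m a = curv (P.A i) z l m r := by
      intro z hz r l m
      have h1 := hΨ i z hz
      have h2 : ∀ b, ∑ a, Ψ.s i z r a * ρ.s i z a b = if r = b then 1 else 0 := by
        intro b
        have := congrFun (congrFun h1 r) b
        simpa [Matrix.mul_apply, Matrix.one_apply] using this
      show ∑ a, Ψ.s i z r a * (∑ b, ρ.s i z a b * curv (P.A i) z l m b) = _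
      simp only [Finset.mul_sum]
      rw [Finset.sum_comm]
      have h3 : ∀ b, ∑ a, Ψ.s i z r a * (ρ.s i z a b * curv (P.A i) z l m b) =
          (if r = b then 1 else 0) * curv (P.A i) z l m b := by
        intro b
        rw [← h2 b, Finset.sum_mul]
        refine Finset.sum_congr rfl fun a _ => ?_
        ring
      rw [Finset.sum_congr rfl fun b _ => h3 b]
      simp
    have hcl := closedAt_curv (P.A i) _ (P.c i).open_target (P.A_smooth i) y hy
    intro r l m n
    have e0 : ∀ (k : Fin 4) (r : Fin 3) (p q : Fin 4),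
        pd k (fun z => ∑ a, Ψ.s i z r a * th P ρ i z p q a) y =
          pd k (fun z => curv (P.A i) z p q r) y := by
      intro k r p q
      refine ph_pd_congr ?_ k
      filter_upwards [(P.c i).open_target.mem_nhds hy] with z hz
      exact hev z hz r p q
    have h4 := hcl r l m n
    unfold dcov at h4 ⊢
    simp only [e0, hev y hy]
    exact h4
  have h0 := mainQH P hP ρ Ψ hc (fun i y hy =>
    sym_nonneg_T _ (th_skew P ρ i y) (hg i y hy) (hu i y hy) (hpin i y hy) _
      (fun r m a => covL_symm P Ψ hΨs i y hy r m a) (hconstr i y hy))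
    (fun i y hy => kE_nonneg _ (hKs i y hy) (hKp i y hy) _) i y hy
  obtain ⟨s, hs1⟩ := kE_zero _ (hKs i y hy) (hKp i y hy) _ h0
  -- `Ψ = s`, so `ρ` is a multiple of the identity
  have h1 := hΨ i y hy
  have h2 : ∀ r b, s * ρ.s i y r b = if r = b then 1 else 0 := by
    intro r b
    have h3 := congrFun (congrFun h1 r) b
    rw [Matrix.mul_apply, Matrix.one_apply] at h3
    rw [← h3]
    simp only [Matrix.of_apply, hs1 r]
    simp [Pi.single_apply]
  have hsne : s ≠ 0 := by
    intro h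
    have := h2 0 0
    rw [h] at this
    simp at this
  funext b
  have h3 := h2 r b
  have h4 := h2 0 0
  have h5 : ρ.s i y r b = s⁻¹ * (if r = b then 1 else 0) := by
    rw [← h3, ← mul_assoc, inv_mul_cancel₀ hsne, one_mul]
  have h6 : ρ.s i y 0 0 = s⁻¹ := by
    have : s * ρ.s i y 0 0 = 1 := by simpa using h4
    field_simp
    linarith
  rw [h5, Pi.smul_apply, smul_eq_mul, h6, Pi.single_apply]
  by_cases hrb : r = b
  · subst hrb; simp
  · have : ¬ b = r := fun h => hrb h.symm
    simp [hrb, this]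

/-- **Theorem** (pencil). -/
theorem mainP [T2Space X] [CompactSpace X] (P : Bundle X) (hP : P.PositiveDefinite)
    (ψ : Sect P (adj P)) (hs : IsSymm P ψ) (hc : ψ.Closed) (α β : ℝ)
    (hpos : ∀ i, ∀ y ∈ (P.c i).target, PosM (pencil α β (ψ.s i y)))
    (hpin : ∀ i, ∀ y ∈ (P.c i).target,
      WeakPinched (tw (pencil α β (ψ.s i y)) (curv (P.A i) y))) :
    ∃ s : X → ℝ, IsLocallyConstant s ∧
      ∀ i, ∀ y ∈ (P.c i).target, ∀ r, ψ.s i y r = s ((P.c i).symm y) • Pi.single r 1 := by
  refine global_of_scalar P hP ψ hc ?_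
  by_cases hβ : β = 0
  · subst hβ
    have hp : IsWeakPinched P := by
      intro i y hy
      have hα : α ≠ 0 := by
        intro h
        have := hpos i y hy (Pi.single 0 1) (by
          intro h0
          have := congrFun h0 0
          simp at this)
        simp [pencil, h] at this
      have h1 := hpin i y hy
      have h2 : tw (pencil α 0 (ψ.s i y)) (curv (P.A i) y) = fun l m => α • curv (P.A i) y l m := by
        funext l m r
        simp [tw, pencil]
      rw [h2] at h1
      have h3 : gram (fun l m => α • curv (P.A i) y l m) = α ^ 2 • gram (curv (P.A i) y) := by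
        ext a b
        simp only [gram, wedge, Pool.Agent.Helper8.DC.cmp, Pi.smul_apply, smul_eq_mul,
          Matrix.smul_apply]
        ring
      unfold WeakPinched at h1 ⊢
      rw [h3] at h1
      have h4 : ((α ^ 2 • gram (curv (P.A i) y)).trace • (1 : Matrix (Fin 3) (Fin 3) ℝ) -
          (2 : ℝ) • α ^ 2 • gram (curv (P.A i) y)).det + 24 * (α ^ 2 • gram (curv (P.A i) y)).det =
          (α ^ 2) ^ 3 * (((gram (curv (P.A i) y)).trace • (1 : Matrix (Fin 3) (Fin 3) ℝ) -
          (2 : ℝ) • gram (curv (P.A i) y)).det + 24 * (gram (curv (P.A i) y)).det) := by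
        simp only [Matrix.det_fin_three, Matrix.trace, Matrix.diag, Fin.sum_univ_three,
          Matrix.sub_apply, Matrix.smul_apply, smul_eq_mul]
        ring
      rw [h4] at h1
      have h5 : 0 < (α ^ 2) ^ 3 := by positivity
      exact nonneg_of_mul_nonneg_right h1 h5
    exact scalar_atS P hP hp ψ hs hc
  · obtain ⟨ρ, hρs, hρc, hρ⟩ := exists_pencil P ψ hs hc α β
    intro i y hy r
    have h1 := scalar_atR P hP ρ hρs hρc (fun i y hy => by rw [hρ]; exact hpos i y hy)
      (fun i y hy => by rw [hρ]; exact hpin i y hy) i y hy r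
    rw [hρ] at h1
    funext b
    have h2 := congrFun h1 b
    simp only [pencil, Pi.smul_apply, smul_eq_mul, if_true, mul_one] at h2 ⊢
    rw [Pi.single_apply] at h2 ⊢
    by_cases hrb : r = b
    · subst hrb
      simp only [if_true, mul_one] at h2 ⊢
      have h3 : β * ψ.s i y r r = β * ψ.s i y 0 0 := by linarith
      exact mul_left_cancel₀ hβ h3
    · have hbr : ¬ b = r := fun h => hrb h.symm
      simp only [hrb, hbr, if_false, mul_zero, zero_add] at h2 ⊢
      exact (mul_eq_zero.1 h2).resolve_left hβ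

end

end Pool.Agent.Helper8.HX
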