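import Pool.Agent.Helper8.HX.Defs
import Pool.Agent.Helper98.DA.VecTr

/-!
HX: the triple and the vector density under changes of charts.
-/

set_option autoImplicit false

open scoped Manifold ContDiff

namespace Pool.Agent.Helper8.HX

open Pool.Agent.Helper8.DC Pool.Agent.Helper8.DA Pool.Agent.Helper8.DE

noncomputable section

variable {X : Type} [TopologicalSpace X] [ChartedSpace E4 X] [IsManifold (𝓡 4) ∞ X]

/-- K3 -/
theorem vecH_tr (P : Bundle X) {N : ℕ} (L : Coef P N) (φ : Sect P L)
    (T : P.ι → E4 → Fin 4 → Fin 4 → R3) (i j : P.ι) (y : E4) (hy : y ∈ P.ov i j)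
    (hTs : Skew (T i (P.tr i j y)))
    (hTtr : ∀ l m, ∑ n, ∑ p, (jac P i j y n l * jac P i j y p m) • T i (P.tr i j y) n p =
      (P.g i j y).mulVec (T j y l m)) (n : Fin 4) :
    ∑ l, jac P i j y n l * vecH (P.A j) (L.B j) (φ.s j) (T j) y l =
      (jac P i j y).det * vecH (P.A i) (L.B i) (φ.s i) (T i) (P.tr i j y) n := by
  set J := jac P i j y with hJ
  set g := P.g i j y with hg
  have hgm : g ∈ Matrix.specialOrthogonalGroup (Fin 3) ℝ := P.g_mem i j y hy
  have hh : ∀ s t : Fin N, ∑ r, L.h i j y r s * L.h i j y r t = if s = t then 1 else 0 := by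
    intro s t
    have h1 := L.h_mem i j y hy
    rw [Matrix.mem_orthogonalGroup_iff'] at h1
    have := congrFun (congrFun h1 s) t
    simpa [Matrix.mul_apply, Matrix.one_apply, Matrix.star_eq_conjTranspose] using this
  have e1 : ∀ r, J.det * trip (φ.s i (P.tr i j y) r) (Pi.single n 1)
      (covL (P.A i) (L.B i) (φ.s i) (P.tr i j y) r) (T i (P.tr i j y)) =
      ∑ s, ∑ t, L.h i j y r s * L.h i j y r t *
        trip (φ.s j y s) (fun m => J n m) (covL (P.A j) (L.B j) (φ.s j) y t)
          (T j y) := by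
    intro r
    rw [← trip_pull J _ _ _ _ hTs]
    have a1 : (fun m => ∑ n', J n' m * (Pi.single n 1 : Fin 4 → ℝ) n') = fun m => J n m := by
      funext m; simp [Pi.single_apply]
    have a2 : (fun m => ∑ n', J n' m • covL (P.A i) (L.B i) (φ.s i) (P.tr i j y) r n') =
        fun m => ∑ t, L.h i j y r t • g.mulVec (covL (P.A j) (L.B j) (φ.s j) y t m) := by
      funext m; exact Pool.Agent.Helper98.DA.covL_tr P L φ i j y hy r m
    have a3 : (fun l m => ∑ n', ∑ p, (J n' l * J p m) • T i (P.tr i j y) n' p) =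
        fun l m => g.mulVec (T j y l m) := by
      funext l m; exact hTtr l m
    rw [a1, a2, a3, φ.compat i j y hy r, trip_sum_phi]
    refine Finset.sum_congr rfl fun s _ => ?_
    rw [trip_sum_cov, Finset.mul_sum]
    refine Finset.sum_congr rfl fun t _ => ?_
    rw [trip_rot g hgm, mul_assoc]
  have e2 : J.det * vecH (P.A i) (L.B i) (φ.s i) (T i) (P.tr i j y) n =
      ∑ s, trip (φ.s j y s) (fun m => J n m) (covL (P.A j) (L.B j) (φ.s j) y s)
          (T j y) := by
    unfold vecH
    rw [Finset.mul_sum]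
    simp only [e1]
    rw [Finset.sum_comm]
    refine Finset.sum_congr rfl fun s _ => ?_
    rw [Finset.sum_comm]
    simp only [← Finset.sum_mul, hh]
    simp
  rw [e2]
  have e3 : ∀ s, trip (φ.s j y s) (fun m => J n m) (covL (P.A j) (L.B j) (φ.s j) y s)
      (T j y) = ∑ l, J n l * trip (φ.s j y s) (Pi.single l 1)
        (covL (P.A j) (L.B j) (φ.s j) y s) (T j y) := fun s => trip_lin_form _ _ _ _
  simp only [e3, vecH, Finset.mul_sum]
  rw [Finset.sum_comm]

/-- K4 -/
theorem tw_tr (P : Bundle X) (ρ : Sect P (adj P)) (i j : P.ι) (y : E4) (hy : y ∈ P.ov i j)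
    (l m : Fin 4) :
    ∑ n, ∑ p, (jac P i j y n l * jac P i j y p m) •
        tw (ρ.s i (P.tr i j y)) (curv (P.A i) (P.tr i j y)) n p =
      (P.g i j y).mulVec (tw (ρ.s j y) (curv (P.A j) y) l m) := by
  have hF := curv_tr P i j y hy l m
  set g := P.g i j y with hg
  have hgm : g ∈ Matrix.specialOrthogonalGroup (Fin 3) ℝ := P.g_mem i j y hy
  have hgo := (Matrix.mem_specialOrthogonalGroup_iff.1 hgm).1
  rw [Matrix.mem_orthogonalGroup_iff'] at hgo
  have hgg : ∀ b c : Fin 3, ∑ a, g a b * g a c = if b = c then 1 else 0 := by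
    intro b c
    have := congrFun (congrFun hgo b) c
    simpa [Matrix.mul_apply, Matrix.one_apply, Matrix.star_eq_conjTranspose] using this
  funext r
  -- the left side is `⟨ρ_i r, g F_j⟩`
  have h1 : (∑ n, ∑ p, (jac P i j y n l * jac P i j y p m) •
      tw (ρ.s i (P.tr i j y)) (curv (P.A i) (P.tr i j y)) n p) r =
      ∑ a, ρ.s i (P.tr i j y) r a * g.mulVec (curv (P.A j) y l m) a := by
    rw [← hF]
    simp only [Finset.sum_apply, Pi.smul_apply, smul_eq_mul, tw, Finset.mul_sum]
    rw [Finset.sum_congr rfl fun n _ => Finset.sum_comm, Finset.sum_comm]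
    refine Finset.sum_congr rfl fun a _ => Finset.sum_congr rfl fun n _ =>
      Finset.sum_congr rfl fun p _ => ?_
    ring
  rw [h1]
  have h2 : ρ.s i (P.tr i j y) r = ∑ t, g r t • g.mulVec (ρ.s j y t) :=
    ρ.compat i j y hy r
  rw [h2]
  have h3 : ∀ v w : R3, ∑ a, g.mulVec v a * g.mulVec w a = ∑ b, v b * w b := by
    intro v w
    have e1 : ∀ a, g.mulVec v a * g.mulVec w a = ∑ b, ∑ c, (g a b * g a c) * (v b * w c) := by
      intro a
      simp only [Matrix.mulVec, dotProduct, Finset.sum_mul, Finset.mul_sum]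
      rw [Finset.sum_comm]
      refine Finset.sum_congr rfl fun b _ => Finset.sum_congr rfl fun c _ => ?_
      ring
    rw [Finset.sum_congr rfl fun a _ => e1 a, Finset.sum_comm]
    refine Finset.sum_congr rfl fun b _ => ?_
    rw [Finset.sum_comm]
    simp only [← Finset.sum_mul, hgg]
    simp
  have h4 : ∑ a, (∑ t, g r t • g.mulVec (ρ.s j y t)) a * g.mulVec (curv (P.A j) y l m) a =
      ∑ t, g r t * ∑ a, g.mulVec (ρ.s j y t) a * g.mulVec (curv (P.A j) y l m) a := by
    simp only [Finset.sum_apply, Pi.smul_apply, smul_eq_mul, Finset.sum_mul, Finset.mul_sum]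
    rw [Finset.sum_comm]
    refine Finset.sum_congr rfl fun a _ => Finset.sum_congr rfl fun t _ => ?_
    ring
  rw [h4, Finset.sum_congr rfl fun t _ => by rw [h3]]
  rfl

end

end Pool.Agent.Helper8.HX
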